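import Pool.Agent.HDC77.Switch
import Pool.Agent.PC70.HandB

/-!
MP_f325cf_co: finite covers of a cubic graph given by two permutations, and a spanning union of
cycles in them.
-/

set_option autoImplicit false

namespace HDC77

open SimpleGraph PC70

variable {V : Type*} {k : ℕ}

/-- The letter that is left out at level `i`. -/
def om (i : Fin (k + 2)) : Letter := if i = 0 then .ti else if i = 1 then .t else .m

theorem om_zero : om (0 : Fin (k + 2)) = .ti := if_pos rfl

theorem om_one : om (1 : Fin (k + 2)) = .t := by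
  unfold om
  rw [if_neg (by simp), if_pos rfl]

theorem om_eq_ti {i : Fin (k + 2)} : om i = .ti ↔ i = 0 := by
  unfold om
  split_ifs with h1 h2 <;> simp_all

theorem om_eq_t {i : Fin (k + 2)} : om i = .t ↔ i = 1 := by
  unfold om
  split_ifs with h1 h2
  · subst h1; simp
  · simp_all
  · simp_all

theorem om_ne_m {i : Fin (k + 2)} : om i ≠ .m ↔ i = 0 ∨ i = 1 := by
  unfold om
  split_ifs with h1 h2 <;> simp_all

/-- The standing hypotheses. -/
structure Dat (τ m : Equiv.Perm V) : Prop where
  hmm : ∀ x, m (m x) = x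
  hm : ∀ x, m x ≠ x
  ht : ∀ x, τ x ≠ x
  h1 : ∀ x, τ x ≠ m x
  h2 : ∀ x, τ.symm x ≠ m x
  h3 : ∀ x, τ x ≠ τ.symm x

/-- The voltages. -/
structure Sig (m : Equiv.Perm V) (k : ℕ) where
  /-- voltages of the 2-factor -/
  s : V → Equiv.Perm (Fin (k + 2))
  /-- voltages of the matching -/
  e : V → Equiv.Perm (Fin (k + 2))
  hs : ∀ x, s x 1 = 0
  he : ∀ x, e (m x) = (e x).symm
  he1 : ∀ x i, om i ≠ .m → om (e x i) ≠ .m

/-- Action of a letter on the cover. -/
def act2 (τ m : Equiv.Perm V) (S : Sig m k) : Letter → V × Fin (k + 2) → V × Fin (k + 2)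
  | .t, p => (τ p.1, S.s p.1 p.2)
  | .ti, p => (τ.symm p.1, (S.s (τ.symm p.1)).symm p.2)
  | .m, p => (m p.1, S.e p.1 p.2)

theorem act2_fst (τ m : Equiv.Perm V) (S : Sig m k) (a : Letter) (p : V × Fin (k + 2)) :
    (act2 τ m S a p).1 = act τ m a p.1 := by
  cases a <;> rfl

theorem Dat.hti {τ m : Equiv.Perm V} (D : Dat τ m) (x : V) : τ.symm x ≠ x := by
  intro h
  apply D.ht x
  conv_lhs => rw [← h]
  exact τ.apply_symm_apply x

theorem inv_inv (a : Letter) : a.inv.inv = a := by cases a <;> rfl

theorem act2_inv {τ m : Equiv.Perm V} (D : Dat τ m) (S : Sig m k)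
    (a : Letter) (p : V × Fin (k + 2)) : act2 τ m S a.inv (act2 τ m S a p) = p := by
  obtain ⟨x, s⟩ := p
  cases a with
  | t => simp [act2, Letter.inv]
  | ti => simp [act2, Letter.inv]
  | m => simp [act2, Letter.inv, D.hmm, S.he]

theorem act_ne {τ m : Equiv.Perm V} (D : Dat τ m) (a : Letter) (x : V) : act τ m a x ≠ x := by
  cases a with
  | t => exact D.ht x
  | ti => exact D.hti x
  | m => exact D.hm x

theorem act_inj {τ m : Equiv.Perm V} (D : Dat τ m) {a b : Letter} {x : V}
    (h : act τ m a x = act τ m b x) : a = b := by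
  cases a <;> cases b <;> first | rfl | (exfalso; simp only [act] at h)
  · exact D.h3 x h
  · exact D.h1 x h
  · exact D.h3 x h.symm
  · exact D.h2 x h
  · exact D.h1 x h.symm
  · exact D.h2 x h.symm

theorem act2_inj {τ m : Equiv.Perm V} (D : Dat τ m) {S : Sig m k} {a b : Letter}
    {p : V × Fin (k + 2)} (h : act2 τ m S a p = act2 τ m S b p) : a = b := by
  have := congrArg Prod.fst h
  rw [act2_fst, act2_fst] at this
  exact act_inj D this

/-- The cover. -/
def cover (τ m : Equiv.Perm V) (S : Sig m k) : SimpleGraph (V × Fin (k + 2)) :=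
  SimpleGraph.fromRel (fun p q => ∃ a : Letter, q = act2 τ m S a p)

theorem cover_adj {τ m : Equiv.Perm V} (D : Dat τ m) (S : Sig m k)
    (p q : V × Fin (k + 2)) : (cover τ m S).Adj p q ↔ ∃ a : Letter, q = act2 τ m S a p := by
  rw [cover, SimpleGraph.fromRel_adj]
  constructor
  · rintro ⟨_, h | ⟨a, rfl⟩⟩
    · exact h
    · exact ⟨a.inv, (act2_inv D S a q).symm⟩
  · rintro ⟨a, rfl⟩
    refine ⟨?_, Or.inl ⟨a, rfl⟩⟩
    intro h
    have := congrArg Prod.fst h
    rw [act2_fst] at this
    exact act_ne D a p.1 this.symm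

/-- A letter that is not left out at `p` is not left out backwards. -/
theorem om_inv {τ m : Equiv.Perm V} (S : Sig m k) {a : Letter}
    {p : V × Fin (k + 2)} (h : om p.2 ≠ a) : om (act2 τ m S a p).2 ≠ a.inv := by
  obtain ⟨x, i⟩ := p
  cases a with
  | t =>
    simp only [act2, Letter.inv, ne_eq, om_eq_ti, om_eq_t] at h ⊢
    intro h0
    apply h
    apply (S.s x).injective
    rw [h0, S.hs]
  | ti =>
    simp only [act2, Letter.inv, ne_eq, om_eq_ti, om_eq_t] at h ⊢
    intro h0
    apply h
    rw [← S.hs (τ.symm x), ← h0, Equiv.apply_symm_apply]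
  | m => exact S.he1 x i h

/-- The spanning 2-factor. -/
def fac (τ m : Equiv.Perm V) (S : Sig m k) : SimpleGraph (V × Fin (k + 2)) :=
  SimpleGraph.fromRel (fun p q => ∃ a : Letter, om p.2 ≠ a ∧ q = act2 τ m S a p)

theorem fac_adj {τ m : Equiv.Perm V} (D : Dat τ m) (S : Sig m k)
    (p q : V × Fin (k + 2)) :
    (fac τ m S).Adj p q ↔ ∃ a : Letter, om p.2 ≠ a ∧ q = act2 τ m S a p := by
  rw [fac, SimpleGraph.fromRel_adj]
  constructor
  · rintro ⟨_, h | ⟨a, ha, rfl⟩⟩
    · exact h
    · exact ⟨a.inv, om_inv S ha, (act2_inv D S a q).symm⟩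
  · rintro ⟨a, ha, rfl⟩
    refine ⟨?_, Or.inl ⟨a, ha, rfl⟩⟩
    intro h
    have := congrArg Prod.fst h
    rw [act2_fst] at this
    exact act_ne D a p.1 this.symm

theorem fac_isCycles {τ m : Equiv.Perm V} (D : Dat τ m) (S : Sig m k) :
    (fac τ m S).IsCycles := by
  intro p _
  obtain ⟨b, c, hbc, hb⟩ : ∃ b c : Letter, b ≠ c ∧ ∀ a, om p.2 ≠ a ↔ a = b ∨ a = c := by
    cases om p.2 with
    | t => exact ⟨.ti, .m, by decide, by intro a; cases a <;> decide⟩
    | ti => exact ⟨.t, .m, by decide, by intro a; cases a <;> decide⟩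
    | m => exact ⟨.t, .ti, by decide, by intro a; cases a <;> decide⟩
  have : (fac τ m S).neighborSet p = {act2 τ m S b p, act2 τ m S c p} := by
    ext q
    rw [mem_neighborSet, fac_adj D S]
    constructor
    · rintro ⟨a, ha, rfl⟩
      rcases (hb a).1 ha with rfl | rfl
      · exact Or.inl rfl
      · exact Or.inr rfl
    · rintro (rfl | rfl)
      · exact ⟨b, (hb b).2 (Or.inl rfl), rfl⟩
      · exact ⟨c, (hb c).2 (Or.inr rfl), rfl⟩
  rw [this, Set.ncard_pair (fun h => hbc (act2_inj D h))]

theorem fac_nonempty {τ m : Equiv.Perm V} (D : Dat τ m) (S : Sig m k)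
    (p : V × Fin (k + 2)) : ((fac τ m S).neighborSet p).Nonempty := by
  obtain ⟨a, ha⟩ : ∃ a : Letter, om p.2 ≠ a := by
    cases om p.2 with
    | t => exact ⟨.m, by decide⟩
    | ti => exact ⟨.m, by decide⟩
    | m => exact ⟨.t, by decide⟩
  exact ⟨act2 τ m S a p, by rw [mem_neighborSet, fac_adj D S]; exact ⟨a, ha, rfl⟩⟩

theorem fac_le {τ m : Equiv.Perm V} (D : Dat τ m) (S : Sig m k) :
    fac τ m S ≤ cover τ m S := by
  intro p q h
  rw [cover_adj D S]
  rw [fac_adj D S] at h
  obtain ⟨a, _, h⟩ := h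
  exact ⟨a, h⟩

/-- The base voltages. -/
def base (m : Equiv.Perm V) (k : ℕ) : Sig m k where
  s := fun _ => Equiv.swap 0 1
  e := fun _ => Equiv.refl _
  hs := fun _ => Equiv.swap_apply_right _ _
  he := fun _ => rfl
  he1 := fun _ _ h => h

section
variable [DecidableEq V]

/-- Switch on a 2-factor edge. -/
def swS {m : Equiv.Perm V} (S : Sig m k) (v : V) (i j : Fin (k + 2)) (hi : i ≠ 1) (hj : j ≠ 1) :
    Sig m k where
  s := fun x => if x = v then (Equiv.swap i j).trans (S.s v) else S.s x
  e := S.e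
  hs := fun x => by
    by_cases h : x = v
    · rw [if_pos h, Equiv.trans_apply, Equiv.swap_apply_of_ne_of_ne hi.symm hj.symm, S.hs]
    · rw [if_neg h, S.hs]
  he := S.he
  he1 := S.he1

/-- Switch on a matching edge. -/
def swE {τ m : Equiv.Perm V} (D : Dat τ m) (S : Sig m k) (v : V) : Sig m k where
  s := S.s
  e := fun x => if x = v then (Equiv.swap 0 1).trans (S.e v) else
    if x = m v then (S.e (m v)).trans (Equiv.swap 0 1) else S.e x
  hs := S.hs
  he := fun x => by
    by_cases h : x = v
    · subst h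
      rw [if_neg (D.hm x), if_pos rfl, if_pos rfl, S.he]
      ext i
      simp
    · by_cases h' : x = m v
      · subst h'
        rw [D.hmm, if_pos rfl, if_neg (D.hm v), if_pos rfl, S.he]
        ext i
        simp
      · have n1 : m x ≠ v := fun h0 => h' (by rw [← h0, D.hmm])
        have n2 : m x ≠ m v := fun h0 => h (m.injective h0)
        rw [if_neg n1, if_neg n2, if_neg h, if_neg h', S.he]
  he1 := fun x i hi => by
    have hsw : ∀ i : Fin (k + 2), om i ≠ .m → om (Equiv.swap 0 1 i) ≠ .m := by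
      intro i hi
      rw [om_ne_m] at hi ⊢
      rcases hi with rfl | rfl
      · right; exact Equiv.swap_apply_left _ _
      · left; exact Equiv.swap_apply_right _ _
    by_cases h : x = v
    · rw [if_pos h, Equiv.trans_apply]
      exact S.he1 v _ (hsw i hi)
    · rw [if_neg h]
      by_cases h' : x = m v
      · rw [if_pos h', Equiv.trans_apply]
        exact hsw _ (S.he1 (m v) i hi)
      · rw [if_neg h']
        exact S.he1 x i hi

theorem swS_lt [Finite V] {τ m : Equiv.Perm V} (D : Dat τ m) (S : Sig m k) (v : V)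
    (i j : Fin (k + 2)) (hi : i ≠ 1) (hj : j ≠ 1)
    (hr : ¬ (fac τ m S).Reachable (v, i) (v, j)) :
    Nat.card (fac τ m (swS S v i j hi hj)).ConnectedComponent <
      Nat.card (fac τ m S).ConnectedComponent := by
  have hi' : om i ≠ .t := fun h => hi (om_eq_t.1 h)
  have hj' : om j ≠ .t := fun h => hj (om_eq_t.1 h)
  refine switch_card_lt (fac_isCycles D S) (a := (v, i)) (a' := act2 τ m S .t (v, i))
      (b := (v, j)) (b' := act2 τ m S .t (v, j)) ?_ ?_ hr ?_ ?_
  · rw [fac_adj D S]; exact ⟨.t, hi', rfl⟩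
  · rw [fac_adj D S]; exact ⟨.t, hj', rfl⟩
  · intro p q h n1 n2
    rw [fac_adj D] at h ⊢
    obtain ⟨a, ha, rfl⟩ := h
    refine ⟨a, ha, ?_⟩
    obtain ⟨x, l⟩ := p
    cases a with
    | t =>
      show (τ x, S.s x l) = (τ x, (if x = v then (Equiv.swap i j).trans (S.s v) else S.s x) l)
      by_cases h : x = v
      · subst h
        rw [if_pos rfl, Equiv.trans_apply, Equiv.swap_apply_of_ne_of_ne]
        · rintro rfl; exact n1 rfl
        · rintro rfl; exact n2 rfl
      · rw [if_neg h]
    | ti =>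
      show (τ.symm x, (S.s (τ.symm x)).symm l) = (τ.symm x,
        (if τ.symm x = v then (Equiv.swap i j).trans (S.s v) else S.s (τ.symm x)).symm l)
      by_cases h : τ.symm x = v
      · subst h
        rw [if_pos rfl, Equiv.symm_trans_apply, Equiv.symm_swap, Equiv.swap_apply_of_ne_of_ne]
        · intro h0
          apply n1
          rw [Sym2.eq_iff]
          right
          constructor
          · simp only [act2]
            rw [← h0, Equiv.apply_symm_apply, Equiv.apply_symm_apply]
          · simp only [act2]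
            rw [← h0]
        · intro h0
          apply n2
          rw [Sym2.eq_iff]
          right
          constructor
          · simp only [act2]
            rw [← h0, Equiv.apply_symm_apply, Equiv.apply_symm_apply]
          · simp only [act2]
            rw [← h0]
      · rw [if_neg h]
    | m => rfl
  · rw [fac_adj D]
    refine ⟨.t, hi', ?_⟩
    show (τ v, S.s v j) = (τ v, (if v = v then (Equiv.swap i j).trans (S.s v) else S.s v) i)
    rw [if_pos rfl, Equiv.trans_apply, Equiv.swap_apply_left]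

theorem swE_lt [Finite V] {τ m : Equiv.Perm V} (D : Dat τ m) (S : Sig m k) (v : V)
    (hr : ¬ (fac τ m S).Reachable (v, 0) (v, 1)) :
    Nat.card (fac τ m (swE D S v)).ConnectedComponent <
      Nat.card (fac τ m S).ConnectedComponent := by
  have hi' : om (0 : Fin (k + 2)) ≠ .m := om_ne_m.2 (Or.inl rfl)
  have hj' : om (1 : Fin (k + 2)) ≠ .m := om_ne_m.2 (Or.inr rfl)
  refine switch_card_lt (fac_isCycles D S) (a := (v, 0)) (a' := act2 τ m S .m (v, 0))
      (b := (v, 1)) (b' := act2 τ m S .m (v, 1)) ?_ ?_ hr ?_ ?_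
  · rw [fac_adj D S]; exact ⟨.m, hi', rfl⟩
  · rw [fac_adj D S]; exact ⟨.m, hj', rfl⟩
  · intro p q h n1 n2
    rw [fac_adj D] at h ⊢
    obtain ⟨a, ha, rfl⟩ := h
    refine ⟨a, ha, ?_⟩
    obtain ⟨x, l⟩ := p
    cases a with
    | t => rfl
    | ti => rfl
    | m =>
      have hl := om_ne_m.1 ha
      show (m x, S.e x l) = (m x, (if x = v then (Equiv.swap 0 1).trans (S.e v) else
        if x = m v then (S.e (m v)).trans (Equiv.swap 0 1) else S.e x) l)
      by_cases h : x = v
      · exfalso
        subst h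
        rcases hl with h0 | h0
        · simp only at h0; subst h0; exact n1 rfl
        · simp only at h0; subst h0; exact n2 rfl
      · rw [if_neg h]
        by_cases h' : x = m v
        · exfalso
          subst h'
          have hl2 := om_ne_m.1 (S.he1 (m v) l ha)
          have key : ∀ r : Fin (k + 2), S.e (m v) l = r →
              s((m v, l), act2 τ m S .m (m v, l)) = s((v, r), act2 τ m S .m (v, r)) := by
            intro r hr
            rw [Sym2.eq_iff]
            right
            constructor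
            · simp only [act2]
              rw [← hr, S.he, Equiv.apply_symm_apply]
            · simp only [act2]
              rw [hr, D.hmm]
          rcases hl2 with h0 | h0
          · exact n1 (key 0 h0)
          · exact n2 (key 1 h0)
        · rw [if_neg h']
  · rw [fac_adj D]
    refine ⟨.m, hi', ?_⟩
    show (m v, S.e v 1) = (m v, (if v = v then (Equiv.swap 0 1).trans (S.e v) else
        if v = m v then (S.e (m v)).trans (Equiv.swap 0 1) else S.e v) 0)
    rw [if_pos rfl, Equiv.trans_apply, Equiv.swap_apply_left]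

end

/-- Good voltages. -/
theorem exists_good [Finite V] {τ m : Equiv.Perm V} (D : Dat τ m) (k : ℕ) :
    ∃ S : Sig m k, ∀ v i j, (fac τ m S).Reachable (v, i) (v, j) := by
  classical
  have : Nonempty (Sig m k) := ⟨base m k⟩
  let f : Sig m k → ℕ := fun S => Nat.card (fac τ m S).ConnectedComponent
  obtain ⟨S, hmin⟩ : ∃ S : Sig m k, ∀ S', f S ≤ f S' :=
    ⟨Function.argmin f, fun S' => Function.argmin_le f S'⟩
  have h01 : ∀ v, (fac τ m S).Reachable (v, 0) (v, 1) := by
    intro v
    by_contra hv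
    exact absurd (hmin _) (not_le.2 (swE_lt D S v hv))
  have hij : ∀ v i j, i ≠ 1 → j ≠ 1 → (fac τ m S).Reachable (v, i) (v, j) := by
    intro v i j hi hj
    by_contra hv
    exact absurd (hmin _) (not_le.2 (swS_lt D S v i j hi hj hv))
  have h0 : ∀ v i, (fac τ m S).Reachable (v, 0) (v, i) := by
    intro v i
    by_cases hi : i = 1
    · subst hi; exact h01 v
    · exact hij v 0 i (by simp) hi
  exact ⟨S, fun v i j => (h0 v i).symm.trans (h0 v j)⟩

theorem fac_connected {τ m : Equiv.Perm V} (D : Dat τ m) (S : Sig m k)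
    (hgood : ∀ v i j, (fac τ m S).Reachable (v, i) (v, j))
    {G : SimpleGraph V} (hG : G.Connected)
    (hadj : ∀ x y, G.Adj x y → ∃ a : Letter, y = act τ m a x) : (fac τ m S).Connected := by
  have hstep : ∀ x y, G.Adj x y → (fac τ m S).Reachable (x, 0) (y, 0) := by
    intro x y h
    obtain ⟨a, rfl⟩ := hadj x y h
    obtain ⟨i, hi⟩ : ∃ i : Fin (k + 2), om i ≠ a := by
      cases a with
      | t => exact ⟨0, by rw [om_zero]; decide⟩
      | ti => exact ⟨1, by rw [om_one]; decide⟩
      | m => exact ⟨0, by rw [om_zero]; decide⟩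
    have h1 : (fac τ m S).Adj (x, i) (act2 τ m S a (x, i)) := (fac_adj D S _ _).2 ⟨a, hi, rfl⟩
    have h2 : act2 τ m S a (x, i) = (act τ m a x, (act2 τ m S a (x, i)).2) := by
      refine Prod.ext ?_ rfl
      exact act2_fst τ m S a (x, i)
    rw [h2] at h1
    exact (hgood x 0 i).trans (h1.reachable.trans (hgood _ _ 0))
  have hall : ∀ x y, G.Reachable x y → (fac τ m S).Reachable (x, 0) (y, 0) := by
    rintro x y ⟨w⟩
    induction w with
    | nil => exact Reachable.refl _
    | cons h w ih => exact (hstep _ _ h).trans ih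
  obtain ⟨v⟩ := hG.nonempty
  have : Nonempty (V × Fin (k + 2)) := ⟨(v, 0)⟩
  refine ⟨?_⟩
  rintro ⟨x, s⟩ ⟨y, s'⟩
  exact (hgood x s 0).trans ((hall x y (hG.preconnected x y)).trans (hgood y 0 s'))

/-- The word of a trail of the cover. -/
theorem word_of_trail {τ m : Equiv.Perm V} (D : Dat τ m) (S : Sig m k) :
    ∀ (p q : V × Fin (k + 2)) (w : (cover τ m S).Walk p q), w.IsTrail →
    ∃ l : List Letter, l.length = w.length ∧ Reduced l ∧ run τ m l p.1 = q.1 ∧
      (∀ b l', l = b :: l' → s(p, act2 τ m S b p) ∈ w.edges) := by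
  intro p q w
  induction w with
  | nil => intro _; exact ⟨[], rfl, by simp [Reduced], rfl, by intro b l' h; cases h⟩
  | @cons p r q h w ih =>
    intro ht
    rw [Walk.isTrail_cons] at ht
    obtain ⟨l, hl1, hl2, hl3, hl4⟩ := ih ht.1
    obtain ⟨a, rfl⟩ := (cover_adj D S _ _).1 h
    refine ⟨a :: l, ?_, ?_, ?_, ?_⟩
    · simp [hl1]
    · cases l with
      | nil => simp [Reduced]
      | cons b l =>
        unfold Reduced at hl2 ⊢
        rw [List.isChain_cons_cons]
        refine ⟨?_, hl2⟩
        rintro rfl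
        apply ht.2
        have := hl4 _ _ rfl
        rw [act2_inv D S] at this
        rw [Sym2.eq_swap]
        exact this
    · show run τ m l (act τ m a p.1) = q.1
      rw [← act2_fst τ m S, hl3]
    · intro b l' hb
      obtain ⟨rfl, rfl⟩ := List.cons.inj hb
      simp

theorem cover_egirth {τ m : Equiv.Perm V} (D : Dat τ m) (S : Sig m k)
    {g : ℕ} (hLF : LF τ m g) : (g : ℕ∞) ≤ (cover τ m S).egirth := by
  rw [le_egirth]
  intro p w hw
  by_contra hlt
  rw [not_le] at hlt
  have hlt' : w.length < g := by exact_mod_cast hlt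
  obtain ⟨l, hl1, hl2, hl3, -⟩ := word_of_trail D S p p w hw.isTrail
  refine hLF l ?_ (by omega) hl2 p.1 hl3
  rintro rfl
  have := hw.three_le_length
  simp at hl1
  omega

end HDC77
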