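import Pool.Agent.HDC77.Lift
import Pool.Agent.PC70.Main
import Pool.Agent.PC70.HandC

/-!
MP_f325cf_co: Hamiltonian covers of cubic graphs with a perfect matching, and connectedness of
cubic cages.
-/

set_option autoImplicit false

namespace HDC77

open SimpleGraph PC70

/-- In a cubic graph the three letters give all neighbours. -/
theorem adj_letter {V : Type*} [Fintype V] [DecidableEq V] {G : SimpleGraph V}
    [DecidableRel G.Adj] (hreg : G.IsRegularOfDegree 3) {τ m : Equiv.Perm V} (D : Dat τ m)
    (hadj : ∀ (a : Letter) (x : V), G.Adj x (act τ m a x)) (x y : V) (h : G.Adj x y) :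
    ∃ a : Letter, y = act τ m a x := by
  have hsub : ({act τ m .t x, act τ m .ti x, act τ m .m x} : Finset V) ⊆ G.neighborFinset x := by
    intro z hz
    rw [mem_neighborFinset]
    simp only [Finset.mem_insert, Finset.mem_singleton] at hz
    rcases hz with rfl | rfl | rfl
    · exact hadj _ _
    · exact hadj _ _
    · exact hadj _ _
  have hcard : ({act τ m .t x, act τ m .ti x, act τ m .m x} : Finset V).card = 3 := by
    rw [Finset.card_eq_three]
    refine ⟨_, _, _, ?_, ?_, ?_, rfl⟩
    · intro h; exact absurd (act_inj D h) (by decide)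
    · intro h; exact absurd (act_inj D h) (by decide)
    · intro h; exact absurd (act_inj D h) (by decide)
  have heq := Finset.eq_of_subset_of_card_le hsub
    (by rw [card_neighborFinset_eq_degree, hreg x, hcard])
  have hy : y ∈ G.neighborFinset x := by rw [mem_neighborFinset]; exact h
  rw [← heq] at hy
  simp only [Finset.mem_insert, Finset.mem_singleton] at hy
  rcases hy with h | h | h
  · exact ⟨_, h⟩
  · exact ⟨_, h⟩
  · exact ⟨_, h⟩

theorem exists_cover {V : Type*} [Fintype V] [DecidableEq V] (G : SimpleGraph V)
    [DecidableRel G.Adj] (hreg : G.IsRegularOfDegree 3) (hconn : G.Connected)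
    (hM : ∃ M : G.Subgraph, M.IsPerfectMatching) (k : ℕ) :
    ∃ H : SimpleGraph (V × Fin (k + 2)), (∀ p q, H.Adj p q → G.Adj p.1 q.1) ∧
      (∀ p w, G.Adj p.1 w → ∃! j, H.Adj p (w, j)) ∧ (∀ p, (H.neighborSet p).ncard = 3) ∧
      G.girth ≤ H.girth ∧ H.IsHamiltonian := by
  obtain ⟨τ, m, hmm, hm, ht, h1, h2, h3'⟩ := exists_perms G hreg hM
  have D : Dat τ m := ⟨hmm, fun x h => (hm x).ne h.symm, fun x h => (ht x).ne h.symm, h1, h2, h3'⟩
  have hadj : ∀ (a : Letter) (x : V), G.Adj x (act τ m a x) := by
    intro a x
    cases a with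
    | t => exact ht x
    | ti =>
      have := ht (τ.symm x)
      rw [Equiv.apply_symm_apply] at this
      exact this.symm
    | m => exact hm x
  have hLF := lf_of_girth G τ m hmm hm ht h1 h2 h3' G.girth (ENat.natCast_toNat_le_self _)
  obtain ⟨S, hS⟩ := exists_good D k
  have hham : (cover τ m S).IsHamiltonian := by
    refine IsHamiltonian.mono (fac_le D S) ?_
    refine hamiltonian_of_isCycles (fac_isCycles D S) ?_ (fac_nonempty D S)
    exact fac_connected D S hS hconn (fun x y h => adj_letter hreg D hadj x y h)
  refine ⟨cover τ m S, ?_, ?_, ?_, ?_, hham⟩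
  · intro p q h
    obtain ⟨a, rfl⟩ := (cover_adj D S p q).1 h
    rw [act2_fst]
    exact hadj a p.1
  · intro p w h
    obtain ⟨a, ha⟩ := adj_letter hreg D hadj p.1 w h
    refine ⟨(act2 τ m S a p).2, ?_, ?_⟩
    · show (cover τ m S).Adj p (w, (act2 τ m S a p).2)
      rw [cover_adj D S]
      refine ⟨a, Prod.ext ?_ rfl⟩
      rw [act2_fst]
      exact ha
    · intro j hj
      obtain ⟨b, hb⟩ := (cover_adj D S _ _).1 hj
      have h1 : w = act τ m b p.1 := by
        rw [← act2_fst τ m S, ← hb]
      have hab : a = b := act_inj D (ha.symm.trans h1)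
      rw [hab, ← hb]
  · intro p
    have : (cover τ m S).neighborSet p =
        (({act2 τ m S .t p, act2 τ m S .ti p, act2 τ m S .m p} : Finset (V × Fin (k + 2))) :
          Set (V × Fin (k + 2))) := by
      ext q
      rw [mem_neighborSet, cover_adj D S]
      simp only [Finset.coe_insert, Finset.coe_singleton, Set.mem_insert_iff,
        Set.mem_singleton_iff]
      constructor
      · rintro ⟨a, rfl⟩
        cases a
        · exact Or.inl rfl
        · exact Or.inr (Or.inl rfl)
        · exact Or.inr (Or.inr rfl)
      · rintro (h | h | h)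
        · exact ⟨_, h⟩
        · exact ⟨_, h⟩
        · exact ⟨_, h⟩
    rw [this, Set.ncard_coe_finset, Finset.card_eq_three]
    refine ⟨_, _, _, ?_, ?_, ?_, rfl⟩
    · intro h; exact absurd (act2_inj D h) (by decide)
    · intro h; exact absurd (act2_inj D h) (by decide)
    · intro h; exact absurd (act2_inj D h) (by decide)
  · have hna : ¬ (cover τ m S).IsAcyclic := by
      intro hac
      have hc : Fintype.card (V × Fin (k + 2)) ≠ 1 := by
        rw [Fintype.card_prod, Fintype.card_fin]
        intro h
        have := Nat.eq_one_of_mul_eq_one_left h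
        omega
      obtain ⟨a, p, hp⟩ := hham hc
      exact hac p hp.isCycle
    have hge : (G.girth : ℕ∞) ≤ (cover τ m S).egirth := cover_egirth D S hLF
    have := ENat.toNat_le_toNat hge (by rw [Ne, egirth_eq_top]; exact hna)
    show G.girth ≤ (cover τ m S).egirth.toNat
    simpa using this

/-- A cubic cage is connected. -/
theorem cage_connected {V : Type} [Fintype V] [DecidableEq V] [Nonempty V] (G : SimpleGraph V)
    [DecidableRel G.Adj] (hreg : G.IsRegularOfDegree 3)
    (hmin : ∀ (n : ℕ) (H : SimpleGraph (Fin n)) [DecidableRel H.Adj],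
      H.IsRegularOfDegree 3 → H.girth = G.girth → Fintype.card V ≤ n) : G.Connected := by
  classical
  have hna : ¬ G.IsAcyclic := not_isAcyclic G hreg (cage_matching G hreg hmin)
  obtain ⟨a, Z, hZ, hZl⟩ := exists_egirth_eq_length.2 hna
  let s : Set V := {v | G.Reachable a v}
  by_cases hall : ∀ v, v ∈ s
  · have : Nonempty V := ⟨a⟩
    exact ⟨fun x y => (hall x).symm.trans (hall y)⟩
  exfalso
  push Not at hall
  obtain ⟨x₀, hx₀⟩ := hall
  have hlt : Fintype.card s < Fintype.card V := Fintype.card_subtype_lt (x := x₀) hx₀
  have hreg₀ : ∀ v : s, (G.induce s).degree v = 3 := by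
    intro v
    rw [degree_induce_of_neighborSet_subset (fun u hu => ?_)]
    · exact hreg v
    · have hv : G.Reachable a v.1 := v.2
      have hu' : G.Adj v.1 u := hu
      exact hv.trans hu'.reachable
  let iso := (G.induce s).overFinIso (rfl : Fintype.card s = Fintype.card s)
  refine absurd (@hmin (Fintype.card s) ((G.induce s).overFin rfl) (Classical.decRel _) ?_ ?_)
    (not_le.2 hlt)
  · intro v
    have h1 := iso.degree_eq (iso.symm v)
    rw [iso.apply_symm_apply] at h1
    rw [h1]
    exact hreg₀ _
  · rw [← iso.girth_eq]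
    have h1 : G.egirth ≤ (G.induce s).egirth :=
      IsContained.egirth_le ⟨(Embedding.induce s).toCopy⟩
    have h2 : (G.induce s).egirth ≤ G.egirth := by
      rw [hZl]
      have hsup : ∀ v ∈ Z.support, v ∈ s := fun v hv => ⟨Z.takeUntil v hv⟩
      have hmap := Walk.map_induce Z hsup
      have hcyc' : (Z.induce s hsup).IsCycle := by
        rw [← Walk.isCycle_map_iff_of_injective (f := (Embedding.induce (G := G) s).toHom)
          (Embedding.induce (G := G) s).injective, hmap]
        exact hZ
      refine le_trans (egirth_le_length hcyc') ?_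
      have hl : (Z.induce s hsup).length = Z.length := by
        have h5 := congrArg Walk.length hmap
        rw [Walk.length_map] at h5
        exact h5
      rw [hl]
    unfold girth
    rw [le_antisymm h2 h1]

end HDC77
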