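import Mathlib

/-!
MP_f325cf_co: a switch of two edges in different cycles merges the two cycles.
-/

set_option autoImplicit false

namespace HDC77

open SimpleGraph

variable {W : Type*}

theorem reach_of_walk {K K' : SimpleGraph W} {a a' b b' : W} (hab : ¬ K.Reachable a b)
    (hK : ∀ x y, K.Adj x y → s(x, y) ≠ s(a, a') → s(x, y) ≠ s(b, b') → K'.Adj x y) :
    ∀ (x y : W), (K.deleteEdges {s(a, a')}).Walk x y → K.Reachable a x → K'.Reachable x y := by
  intro x y w
  induction w with
  | nil => intro _; exact Reachable.refl _
  | @cons x z y h w ih =>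
    intro hx
    rw [deleteEdges_adj] at h
    have hz : K.Reachable a z := hx.trans h.1.reachable
    refine Reachable.trans (Adj.reachable (hK x z h.1 h.2 ?_)) (ih hz)
    intro he
    rw [Sym2.eq_iff] at he
    rcases he with ⟨e1, _⟩ | ⟨_, e2⟩
    · exact hab (e1 ▸ hx)
    · exact hab (e2 ▸ hz)

theorem switch_card_lt [Finite W] {K K' : SimpleGraph W} (hcyc : K.IsCycles) {a a' b b' : W}
    (ha : K.Adj a a') (hb : K.Adj b b') (hab : ¬ K.Reachable a b)
    (hK : ∀ x y, K.Adj x y → s(x, y) ≠ s(a, a') → s(x, y) ≠ s(b, b') → K'.Adj x y)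
    (h1 : K'.Adj a b') :
    Nat.card K'.ConnectedComponent < Nat.card K.ConnectedComponent := by
  classical
  have ra : K'.Reachable a a' := by
    obtain ⟨w⟩ := hcyc.reachable_deleteEdges ha
    exact reach_of_walk hab hK a a' w (Reachable.refl _)
  have rb : K'.Reachable b b' := by
    obtain ⟨w⟩ := hcyc.reachable_deleteEdges hb
    exact reach_of_walk (a := b) (a' := b') (b := a) (b' := a') (fun h => hab h.symm)
      (fun x y h e1 e2 => hK x y h e2 e1) b b' w (Reachable.refl _)
  have hall : ∀ x y, K.Adj x y → K'.Reachable x y := by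
    intro x y h
    by_cases e1 : s(x, y) = s(a, a')
    · rw [Sym2.eq_iff] at e1
      rcases e1 with ⟨rfl, rfl⟩ | ⟨rfl, rfl⟩
      · exact ra
      · exact ra.symm
    · by_cases e2 : s(x, y) = s(b, b')
      · rw [Sym2.eq_iff] at e2
        rcases e2 with ⟨rfl, rfl⟩ | ⟨rfl, rfl⟩
        · exact rb
        · exact rb.symm
      · exact (hK x y h e1 e2).reachable
  have hall' : ∀ x y, K.Reachable x y → K'.Reachable x y := by
    rintro x y ⟨w⟩
    induction w with
    | nil => exact Reachable.refl _
    | cons h w ih => exact (hall _ _ h).trans ih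
  let f : K.ConnectedComponent → K'.ConnectedComponent :=
    ConnectedComponent.lift (fun v => K'.connectedComponentMk v)
      (fun v w p _ => ConnectedComponent.sound (hall' v w p.reachable))
  have hfs : Function.Surjective f := by
    intro c
    induction c using ConnectedComponent.ind with
    | h v => exact ⟨K.connectedComponentMk v, rfl⟩
  have hfi : ¬ Function.Injective f := by
    intro h
    apply hab
    have h2 : f (K.connectedComponentMk a) = f (K.connectedComponentMk b) :=
      ConnectedComponent.sound (h1.reachable.trans rb.symm)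
    exact ConnectedComponent.exact (h h2)
  have : Fintype K.ConnectedComponent := Fintype.ofFinite _
  have : Fintype K'.ConnectedComponent := Fintype.ofFinite _
  rw [Nat.card_eq_fintype_card, Nat.card_eq_fintype_card]
  exact Fintype.card_lt_of_surjective_not_injective f hfs hfi

/-- A connected finite graph that consists of cycles has a Hamiltonian cycle. -/
theorem hamiltonian_of_isCycles [Fintype W] [DecidableEq W] {K : SimpleGraph W}
    (hcyc : K.IsCycles) (hconn : K.Connected) (hne : ∀ v, (K.neighborSet v).Nonempty) :
    K.IsHamiltonian := by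
  intro _
  obtain ⟨v⟩ := hconn.nonempty
  obtain ⟨p, hp, hp2⟩ := IsCycles.exists_cycle_toSubgraph_verts_eq_connectedComponentSupp
    (c := K.connectedComponentMk v) hcyc (v := v) rfl (hne v)
  refine ⟨v, p, ?_⟩
  rw [Walk.isHamiltonianCycle_iff_isCycle_and_support_count_tail_eq_one]
  refine ⟨hp, fun x => ?_⟩
  have hx : x ∈ p.support := by
    rw [← Walk.mem_verts_toSubgraph, hp2]
    exact ConnectedComponent.sound (hconn.preconnected x v)
  have hx' : x ∈ p.support.tail := by
    rw [← Walk.cons_tail_support] at hx
    rcases List.mem_cons.1 hx with rfl | h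
    · exact Walk.end_mem_tail_support hp.not_nil
    · exact h
  exact List.count_eq_one_of_mem hp.support_nodup hx'

end HDC77
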